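import Pool.Agent.N770.Six
import Pool.Agent.TH293.AP.Core

set_option autoImplicit false

/-!
# Additive pairs and the four exponentials conjecture, complex and real versions
-/

namespace Pool.Agent.U945.AP

open Pool.Agent.TH293.AP (Dep core indep rep)
open Pool.Agent.H301R2.SSE (QB mem_QB Lt Lt_one Lt_log Lg mem_Lg)

/-- the logarithm of a positive rational number -/
noncomputable def lg (x : ℚ) : ℂ := ((Real.log (x : ℝ) : ℝ) : ℂ)

lemma lg_mul {x y : ℚ} (hx : x ≠ 0) (hy : y ≠ 0) : lg (x * y) = lg x + lg y := by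
  unfold lg
  rw [Rat.cast_mul, Real.log_mul (by exact_mod_cast hx) (by exact_mod_cast hy)]
  push_cast
  rfl

lemma lg_zpow (x : ℚ) (k : ℤ) : lg (x ^ k) = k * lg x := by
  unfold lg
  rw [Rat.cast_zpow, Real.log_zpow]
  push_cast
  rfl

lemma lg_one : lg 1 = 0 := by
  unfold lg
  simp

lemma lg_div {x y : ℚ} (hx : x ≠ 0) (hy : y ≠ 0) : lg (x / y) = lg x - lg y := by
  have := lg_mul (div_ne_zero hx hy) hy
  rw [div_mul_cancel₀ _ hy] at this
  rw [this]
  ring

lemma lg_eq_zero {x : ℚ} (hx : 0 < x) (h : lg x = 0) : x = 1 := by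
  unfold lg at h
  have h1 : Real.log (x : ℝ) = 0 := by exact_mod_cast h
  have h2 : (0 : ℝ) < x := by exact_mod_cast hx
  have := Real.eq_one_of_pos_of_log_eq_zero h2 h1
  exact_mod_cast this

lemma exp_lg {x : ℚ} (hx : 0 < x) : Complex.exp (lg x) = x := by
  unfold lg
  rw [← Complex.ofReal_exp, Real.exp_log (by exact_mod_cast hx)]
  simp

lemma alg_exp_lg {x : ℚ} (hx : 0 < x) : IsAlgebraic ℚ (Complex.exp (lg x)) := by
  rw [exp_lg hx]
  exact isAlgebraic_algebraMap x

/-- three rational numbers which are not multiplicatively dependent have independent logarithms -/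
lemma indep_lg {x y z : ℚ} (hx : 0 < x) (hy : 0 < y) (hz : 0 < z) (h : ¬ Dep x y z) :
    LinearIndependent ℚ (![lg x, lg y, lg z] : Fin 3 → ℂ) := by
  rw [← LinearIndependent.iff_fractionRing ℤ ℚ, Fintype.linearIndependent_iff]
  intro g hg
  rw [Fin.sum_univ_three] at hg
  simp only [Matrix.cons_val_zero, Matrix.cons_val_one, Matrix.cons_val_two, Matrix.tail_cons,
    Matrix.head_cons, zsmul_eq_mul] at hg
  have hx' := hx.ne'
  have hy' := hy.ne'
  have hz' := hz.ne'
  have h1 : lg (x ^ g 0 * y ^ g 1 * z ^ g 2) = 0 := by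
    rw [lg_mul (by positivity) (by positivity), lg_mul (by positivity) (by positivity),
      lg_zpow, lg_zpow, lg_zpow]
    exact hg
  have h2 : x ^ g 0 * y ^ g 1 * z ^ g 2 = 1 := lg_eq_zero (by positivity) h1
  by_contra hne
  push Not at hne
  obtain ⟨i, hi⟩ := hne
  apply h
  refine ⟨g 0, g 1, g 2, ?_, h2⟩
  fin_cases i
  · exact Or.inl hi
  · exact Or.inr (Or.inl hi)
  · exact Or.inr (Or.inr hi)

/-- independence over the algebraic numbers -/
lemma indep_QB {x y z : ℚ} (hx : 0 < x) (hy : 0 < y) (hz : 0 < z) (h : ¬ Dep x y z) :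
    LinearIndependent QB (![lg x, lg y, lg z] : Fin 3 → ℂ) := by
  rw [Fintype.linearIndependent_iff]
  intro g hg
  have hb := (Pool.Agent.H297R2.baker_inhom (![lg x, lg y, lg z] : Fin 3 → ℂ) (by
    intro i
    fin_cases i
    · exact alg_exp_lg hx
    · exact alg_exp_lg hy
    · exact alg_exp_lg hz) (indep_lg hx hy hz h) 0 isAlgebraic_zero (fun i => (g i : ℂ))
    (fun i => mem_QB.1 (g i).2) (by rw [zero_add]; exact hg)).2
  intro i
  exact Subtype.ext (hb i)

/-- strong six exponentials theorem for rational numbers -/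
lemma dep_of {t : ℂ} (ht : Transcendental ℚ t) {x y z : ℚ} (hx : 0 < x) (hy : 0 < y)
    (hz : 0 < z) (h1 : t * lg x ∈ Lt) (h2 : t * lg y ∈ Lt) (h3 : t * lg z ∈ Lt) :
    Dep x y z := by
  by_contra hcon
  refine Pool.Agent.N770.six t (fun c hc => ht (by rw [hc]; exact mem_QB.1 c.2))
    (![lg x, lg y, lg z] : Fin 3 → ℂ) (indep_QB hx hy hz hcon) (fun j => ?_) (fun j => ?_)
  · fin_cases j
    · exact Lt_log (alg_exp_lg hx)
    · exact Lt_log (alg_exp_lg hy)
    · exact Lt_log (alg_exp_lg hz)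
  · fin_cases j
    · exact h1
    · exact h2
    · exact h3

/-- the additive pairs -/
def SP (V : Submodule ℚ ℂ) (t : ℂ) : Set ℚ :=
  {x : ℚ | 0 < x ∧ x < 1 / 2 ∧ t * lg x ∈ V ∧ t * lg (1 - x) ∈ V}

lemma e4 : lg 4 = 2 * lg 2 := by
  have := lg_zpow 2 2
  norm_num at this
  exact this

lemma e9 : lg 9 = 2 * lg 3 := by
  have := lg_zpow 3 2
  norm_num at this
  exact this

lemma e8 : lg 8 = 3 * lg 2 := by
  have := lg_zpow 2 3
  norm_num at this
  exact this

lemma smul_mem' (V : Submodule ℚ ℂ) (z : ℂ) (q : ℚ) (hz : z ∈ V) : (q : ℂ) * z ∈ V := by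
  have := V.smul_mem q hz
  rwa [Rat.smul_def] at this

lemma special_mem {V : Submodule ℚ ℂ} {t : ℂ} (h2 : t * lg 2 ∈ V) (h3 : t * lg 3 ∈ V) :
    ({1 / 3, 1 / 4, 1 / 9} : Set ℚ) ⊆ SP V t := by
  have hm : ∀ a b : ℚ, (a : ℂ) * (t * lg 2) + (b : ℂ) * (t * lg 3) ∈ V :=
    fun a b => V.add_mem (smul_mem' V _ a h2) (smul_mem' V _ b h3)
  rintro x (rfl | rfl | rfl)
  · refine ⟨by norm_num, by norm_num, ?_, ?_⟩
    · have := hm 0 (-1)
      rw [lg_div (by norm_num) (by norm_num), lg_one]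
      convert this using 1
      push_cast
      ring
    · have := hm 1 (-1)
      have e : (1 : ℚ) - 1 / 3 = 2 / 3 := by norm_num
      rw [e, lg_div (by norm_num) (by norm_num)]
      convert this using 1
      push_cast
      ring
  · refine ⟨by norm_num, by norm_num, ?_, ?_⟩
    · have := hm (-2) 0
      rw [lg_div (by norm_num) (by norm_num), lg_one, e4]
      convert this using 1
      push_cast
      ring
    · have := hm (-2) 1
      have e : (1 : ℚ) - 1 / 4 = 3 / 4 := by norm_num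
      rw [e, lg_div (by norm_num) (by norm_num), e4]
      convert this using 1
      push_cast
      ring
  · refine ⟨by norm_num, by norm_num, ?_, ?_⟩
    · have := hm 0 (-2)
      rw [lg_div (by norm_num) (by norm_num), lg_one, e9]
      convert this using 1
      push_cast
      ring
    · have := hm 3 (-2)
      have e : (1 : ℚ) - 1 / 9 = 8 / 9 := by norm_num
      rw [e, lg_div (by norm_num) (by norm_num), e9, e8]
      convert this using 1
      push_cast
      ring

lemma special_of {V : Submodule ℚ ℂ} {t : ℂ} {x : ℚ} (hxs : x ∈ SP V t)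
    (hx : x = 1 / 3 ∨ x = 1 / 4 ∨ x = 1 / 9) : t * lg 2 ∈ V ∧ t * lg 3 ∈ V := by
  obtain ⟨-, -, h2, h3⟩ := hxs
  rcases hx with rfl | rfl | rfl
  · have e : (1 : ℚ) - 1 / 3 = 2 / 3 := by norm_num
    rw [lg_div (by norm_num) (by norm_num), lg_one] at h2
    rw [e, lg_div (by norm_num) (by norm_num)] at h3
    refine ⟨?_, ?_⟩
    · have := V.sub_mem h3 h2
      convert this using 1
      ring
    · have := V.neg_mem h2
      convert this using 1
      ring
  · have e : (1 : ℚ) - 1 / 4 = 3 / 4 := by norm_num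
    rw [lg_div (by norm_num) (by norm_num), lg_one, e4] at h2
    rw [e, lg_div (by norm_num) (by norm_num), e4] at h3
    refine ⟨?_, ?_⟩
    · have := smul_mem' V _ (-1 / 2) h2
      convert this using 1
      push_cast
      ring
    · have := V.sub_mem h3 h2
      convert this using 1
      ring
  · have e : (1 : ℚ) - 1 / 9 = 8 / 9 := by norm_num
    rw [lg_div (by norm_num) (by norm_num), lg_one, e9] at h2
    rw [e, lg_div (by norm_num) (by norm_num), e9, e8] at h3
    refine ⟨?_, ?_⟩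
    · have := smul_mem' V _ (1 / 3) (V.sub_mem h3 h2)
      convert this using 1
      push_cast
      ring
    · have := smul_mem' V _ (-1 / 2) h2
      convert this using 1
      push_cast
      ring

/-- two additive pairs -/
lemma two_pairs {t : ℂ} {V : Submodule ℚ ℂ}
    (hdep : ∀ x y z : ℚ, 0 < x → 0 < y → 0 < z → t * lg x ∈ V → t * lg y ∈ V → t * lg z ∈ V →
      Dep x y z) : ∀ x ∈ SP V t, ∀ x' ∈ SP V t, x' = x ∨ ((x = 1 / 3 ∨ x = 1 / 4 ∨ x = 1 / 9) ∧
      (x' = 1 / 3 ∨ x' = 1 / 4 ∨ x' = 1 / 9)) := by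
  rintro x ⟨h0, h1, h2, h3⟩ x' ⟨h0', h1', h2', h3'⟩
  have hy : 0 < 1 - x := by linarith
  have hy' : 0 < 1 - x' := by linarith
  exact core h0 h1 h0' h1' (hdep _ _ _ h0 hy h0' h2 h3 h2') (hdep _ _ _ h0 hy hy' h2 h3 h3')
    (hdep _ _ _ h0' hy' h0 h2' h3' h2) (hdep _ _ _ h0' hy' hy h2' h3' h3)

theorem dichotomy {t : ℂ} {V : Submodule ℚ ℂ}
    (hdep : ∀ x y z : ℚ, 0 < x → 0 < y → 0 < z → t * lg x ∈ V → t * lg y ∈ V → t * lg z ∈ V →
      Dep x y z) :
    (SP V t).Subsingleton ∨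
      (t * lg 2 ∈ V ∧ t * lg 3 ∈ V ∧ SP V t = {1 / 3, 1 / 4, 1 / 9}) := by
  have hcore := two_pairs hdep
  by_cases hex : ∃ x ∈ SP V t, x = 1 / 3 ∨ x = 1 / 4 ∨ x = 1 / 9
  · right
    obtain ⟨x, hx, hx'⟩ := hex
    obtain ⟨h2, h3⟩ := special_of hx hx'
    refine ⟨h2, h3, Set.Subset.antisymm (fun s hs => ?_) (special_mem h2 h3)⟩
    rcases hcore x hx s hs with h | ⟨-, h⟩
    · rw [h]
      exact hx'
    · exact h
  · left
    intro x hx x' hx'
    rcases hcore x hx x' hx' with h | ⟨h, -⟩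
    · exact h.symm
    · exact absurd ⟨x, hx, h⟩ hex

/-- **Additive pairs and a power of two.** -/
theorem with_two {x : ℚ} (h0 : 0 < x) (h1 : x < 1 / 2) (hd : Dep x (1 - x) 2) :
    ∃ k : ℕ, x = 1 / 2 ^ k ∨ x = 1 / (2 ^ k + 1) := by
  obtain ⟨a, b, c, habc, ha, hab, cab, cac, cbc, hx, hx'⟩ := rep h0 h1
  obtain ⟨k, l, m, hne, h⟩ := hd
  have hb : 1 ≤ b := by omega
  have hc : 1 ≤ c := by omega
  have ha0 : (a : ℚ) ≠ 0 := by exact_mod_cast (by omega : a ≠ 0)
  have hb0 : (b : ℚ) ≠ 0 := by exact_mod_cast (by omega : b ≠ 0)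
  have hc0 : (c : ℚ) ≠ 0 := by exact_mod_cast (by omega : c ≠ 0)
  have hy : 0 < 1 - x := by linarith
  have hx0 := h0.ne'
  have hy0 := hy.ne'
  -- valuations at odd primes
  have hval : ∀ p : ℕ, p.Prime → p ≠ 2 →
      k * ((padicValNat p a : ℤ) - padicValNat p c) + l * ((padicValNat p b : ℤ) - padicValNat p c) = 0 := by
    intro p hp hp2
    haveI : Fact p.Prime := ⟨hp⟩
    have h2 := congrArg (padicValRat p) h
    have e2 : padicValRat p 2 = 0 := by
      have : padicValRat p ((2 : ℕ) : ℚ) = 0 := by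
        rw [padicValRat.of_nat]
        have : ¬ p ∣ 2 := by
          intro hd
          exact hp2 ((Nat.prime_dvd_prime_iff_eq hp Nat.prime_two).1 hd)
        rw [padicValNat.eq_zero_of_not_dvd this]
        rfl
      exact_mod_cast this
    rw [padicValRat.mul (by positivity) (by positivity), padicValRat.mul (by positivity)
      (by positivity), padicValRat.zpow, padicValRat.zpow, padicValRat.zpow,
      padicValRat.one, e2, mul_zero, add_zero, hx', hx,
      padicValRat.div ha0 hc0, padicValRat.div hb0 hc0, padicValRat.of_nat, padicValRat.of_nat,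
      padicValRat.of_nat] at h2
    exact h2
  have hkl : ¬ (k = 0 ∧ l = 0) := by
    rintro ⟨rfl, rfl⟩
    rw [zpow_zero, zpow_zero, one_mul, one_mul] at h
    have : m = 0 := by
      by_contra hm
      have h3 := (zpow_eq_one_iff_right₀ (by norm_num : (0 : ℚ) ≤ 2) (by norm_num : (2 : ℚ) ≠ 1)).1 h
      exact hm h3
    rcases hne with h | h | h
    · exact h rfl
    · exact h rfl
    · exact h this
  -- odd prime divisors
  have hA : ∀ p : ℕ, p.Prime → p ≠ 2 → p ∣ a → k = 0 := by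
    intro p hp hp2 hd
    haveI : Fact p.Prime := ⟨hp⟩
    have h3 := hval p hp hp2
    have nb : ¬ p ∣ b := fun h => Nat.Prime.one_lt hp |>.ne' (Nat.dvd_one.1 (cab ▸ Nat.dvd_gcd hd h))
    have nc : ¬ p ∣ c := fun h => Nat.Prime.one_lt hp |>.ne' (Nat.dvd_one.1 (cac ▸ Nat.dvd_gcd hd h))
    rw [padicValNat.eq_zero_of_not_dvd nb, padicValNat.eq_zero_of_not_dvd nc] at h3
    have : 1 ≤ padicValNat p a := one_le_padicValNat_of_dvd (by omega) hd
    have h4 : k * (padicValNat p a : ℤ) = 0 := by simpa using h3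
    rcases mul_eq_zero.1 h4 with h | h
    · exact h
    · omega
  have hB : ∀ p : ℕ, p.Prime → p ≠ 2 → p ∣ b → l = 0 := by
    intro p hp hp2 hd
    haveI : Fact p.Prime := ⟨hp⟩
    have h3 := hval p hp hp2
    have na : ¬ p ∣ a := fun h => Nat.Prime.one_lt hp |>.ne' (Nat.dvd_one.1 (cab ▸ Nat.dvd_gcd h hd))
    have nc : ¬ p ∣ c := fun h => Nat.Prime.one_lt hp |>.ne' (Nat.dvd_one.1 (cbc ▸ Nat.dvd_gcd hd h))
    rw [padicValNat.eq_zero_of_not_dvd na, padicValNat.eq_zero_of_not_dvd nc] at h3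
    have : 1 ≤ padicValNat p b := one_le_padicValNat_of_dvd (by omega) hd
    have h4 : l * (padicValNat p b : ℤ) = 0 := by simpa using h3
    rcases mul_eq_zero.1 h4 with h | h
    · exact h
    · omega
  have hC : ∀ p : ℕ, p.Prime → p ≠ 2 → p ∣ c → k + l = 0 := by
    intro p hp hp2 hd
    haveI : Fact p.Prime := ⟨hp⟩
    have h3 := hval p hp hp2
    have na : ¬ p ∣ a := fun h => Nat.Prime.one_lt hp |>.ne' (Nat.dvd_one.1 (cac ▸ Nat.dvd_gcd h hd))
    have nb : ¬ p ∣ b := fun h => Nat.Prime.one_lt hp |>.ne' (Nat.dvd_one.1 (cbc ▸ Nat.dvd_gcd h hd))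
    rw [padicValNat.eq_zero_of_not_dvd na, padicValNat.eq_zero_of_not_dvd nb] at h3
    have : 1 ≤ padicValNat p c := one_le_padicValNat_of_dvd (by omega) hd
    have h4 : (k + l) * (padicValNat p c : ℤ) = 0 := by
      have : (k + l) * (padicValNat p c : ℤ) = -(k * (((0 : ℕ) : ℤ) - padicValNat p c) +
        l * (((0 : ℕ) : ℤ) - padicValNat p c)) := by push_cast; ring
      rw [this, h3, neg_zero]
    rcases mul_eq_zero.1 h4 with h | h
    · exact h
    · omega
  have hpow : ∀ n : ℕ, 1 ≤ n → (∀ p : ℕ, p.Prime → p ≠ 2 → ¬ p ∣ n) → ∃ j, n = 2 ^ j := by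
    intro n hn h
    rcases Nat.eq_two_pow_or_exists_odd_prime_and_dvd n with h1 | ⟨p, hp, hd, ho⟩
    · exact h1
    · exact absurd hd (h p hp (by rintro rfl; exact absurd ho (by decide)))
  by_cases qa : ∃ p : ℕ, p.Prime ∧ p ≠ 2 ∧ p ∣ a
  · exfalso
    obtain ⟨p, hp, hp2, hd⟩ := qa
    have hk := hA p hp hp2 hd
    have hl : l ≠ 0 := fun hl => hkl ⟨hk, hl⟩
    obtain ⟨i, hi⟩ := hpow b hb (fun q hq hq2 hd' => hl (hB q hq hq2 hd'))
    obtain ⟨j, hj⟩ := hpow c hc (fun q hq hq2 hd' => hl (by have := hC q hq hq2 hd'; omega))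
    have hi0 : i = 0 := by
      by_contra hi0
      have hj0 : j ≠ 0 := by
        rintro rfl
        rw [pow_zero] at hj
        omega
      have h1 : 2 ∣ b := hi ▸ dvd_pow_self 2 hi0
      have h2 : 2 ∣ c := hj ▸ dvd_pow_self 2 hj0
      have h3 := Nat.dvd_gcd h1 h2
      rw [cbc] at h3
      omega
    rw [hi0, pow_zero] at hi
    omega
  · push Not at qa
    obtain ⟨i, hi⟩ := hpow a ha qa
    by_cases qb : ∃ p : ℕ, p.Prime ∧ p ≠ 2 ∧ p ∣ b
    · obtain ⟨p, hp, hp2, hd⟩ := qb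
      have hl := hB p hp hp2 hd
      have hk : k ≠ 0 := fun hk => hkl ⟨hk, hl⟩
      obtain ⟨j, hj⟩ := hpow c hc (fun q hq hq2 hd' => hk (by have := hC q hq hq2 hd'; omega))
      have hi0 : i = 0 := by
        by_contra hi0
        have hj0 : j ≠ 0 := by
          rintro rfl
          rw [pow_zero] at hj
          omega
        have h1 : 2 ∣ a := hi ▸ dvd_pow_self 2 hi0
        have h2 : 2 ∣ c := hj ▸ dvd_pow_self 2 hj0
        have h3 := Nat.dvd_gcd h1 h2
        rw [cac] at h3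
        omega
      rw [hi0, pow_zero] at hi
      refine ⟨j, Or.inl ?_⟩
      rw [hx, hi, hj]
      push_cast
      rfl
    · push Not at qb
      obtain ⟨j, hj⟩ := hpow b hb qb
      have hi0 : i = 0 := by
        by_contra hi0
        have hj0 : j ≠ 0 := by
          rintro rfl
          rw [pow_zero] at hj
          omega
        have h1 : 2 ∣ a := hi ▸ dvd_pow_self 2 hi0
        have h2 : 2 ∣ b := hj ▸ dvd_pow_self 2 hj0
        have h3 := Nat.dvd_gcd h1 h2
        rw [cab] at h3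
        omega
      rw [hi0, pow_zero] at hi
      refine ⟨j, Or.inr ?_⟩
      rw [hx, ← habc, hi, hj]
      push_cast
      ring

/-- Gelfond-Schneider -/
lemma not_mem_of_alg {t : ℂ} (ht : IsAlgebraic ℚ t) (hirr : ∀ q : ℚ, t ≠ q) {x : ℚ} (hx : 0 < x)
    (hx1 : x ≠ 1) : t * lg x ∉ Lg := by
  intro hmem
  rw [mem_Lg] at hmem
  have hne : lg x ≠ 0 := fun h => hx1 (lg_eq_zero hx h)
  by_cases hli : LinearIndependent ℚ (![lg x, t * lg x] : Fin 2 → ℂ)
  · have := (Pool.Agent.H297R2.baker_inhom (![lg x, t * lg x] : Fin 2 → ℂ) (by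
      intro i
      fin_cases i
      · exact alg_exp_lg hx
      · exact hmem) hli 0 isAlgebraic_zero ![t, -1] (by
      intro i
      fin_cases i
      · exact ht
      · exact isAlgebraic_one.neg) (by
      rw [Fin.sum_univ_two]
      simp)).2 1
    simp at this
  · rw [LinearIndependent.pair_iff] at hli
    push Not at hli
    obtain ⟨s, u, hsu, hne2⟩ := hli
    rw [Rat.smul_def, Rat.smul_def] at hsu
    have h1 : ((s : ℂ) + u * t) * lg x = 0 := by linear_combination hsu
    have h2 : (s : ℂ) + u * t = 0 := (mul_eq_zero.1 h1).resolve_right hne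
    by_cases hu : u = 0
    · rw [hu] at h2
      have hs : s = 0 := by
        have : (s : ℂ) = 0 := by simpa using h2
        exact_mod_cast this
      exact hne2 hs hu
    · apply hirr (-s / u)
      have hu' : (u : ℂ) ≠ 0 := by exact_mod_cast hu
      push_cast
      field_simp
      linear_combination h2

/-- dependence, for an irrational real number `t` -/
lemma dep_real {t : ℝ} (ht : Irrational t) (x y z : ℚ) (hx : 0 < x) (hy : 0 < y)
    (hz : 0 < z) (h1 : (t : ℂ) * lg x ∈ Lg) (h2 : (t : ℂ) * lg y ∈ Lg) (h3 : (t : ℂ) * lg z ∈ Lg) :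
    Dep x y z := by
  by_cases halg : IsAlgebraic ℚ (t : ℂ)
  · by_cases hx1 : x = 1
    · refine ⟨1, 0, 0, Or.inl one_ne_zero, ?_⟩
      rw [hx1]
      simp
    · exfalso
      exact not_mem_of_alg halg (fun q hq => ht ⟨q, by exact_mod_cast hq.symm⟩) hx hx1 h1
  · exact dep_of halg hx hy hz (Lt_log (mem_Lg.1 h1)) (Lt_log (mem_Lg.1 h2)) (Lt_log (mem_Lg.1 h3))

/-- powers -/
lemma mem_iff (t : ℝ) {x : ℚ} (hx : 0 < x) : (t : ℂ) * lg x ∈ Lg ↔ IsAlgebraic ℚ ((x : ℝ) ^ t) := by
  rw [mem_Lg]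
  unfold lg
  rw [← Complex.ofReal_mul, ← Complex.ofReal_exp, Real.rpow_def_of_pos (by exact_mod_cast hx),
    mul_comm t]
  constructor
  · intro h
    exact (isAlgebraic_algebraMap_iff (A := ℂ) (algebraMap ℝ ℂ).injective).1 h
  · intro h
    exact h.algebraMap

end Pool.Agent.U945.AP
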